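import Pool.Agent.H567.PP.Stm

/-!
# Project PP, task PP-9: short character sums to large moduli with a small radical
-/

set_option autoImplicit false

namespace Pool.Agent.H17.PP

open Finset Filter
open Pool.Agent.H567.PP
open Pool.Agent.Y957.VK (TT WJ)
open Pool.Agent.helper24_UT (tw)

/-- the property of the constant in `S_TNQ` -/
def TNQ (C : ℕ) : Prop := ∀ (r s M i : ℕ) (α : ℕ → ℝ) (Δ : ℝ), 20 ≤ r → s = r ^ 2 + r ^ 3 → 1 ≤ M → i ∈ Icc 1 r →
  1 ≤ Δ → WJ s M i (α i) ≤ (M : ℝ) ^ (2 * i) / Δ →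
  ‖TT r M α‖ ≤ (M : ℝ) ^ 2 * Real.exp (C * (r : ℝ) ^ C) *
    ((M : ℝ) ^ (1 / 100000 : ℝ) / Δ) ^ (1 / (4 * (s : ℝ) ^ 2) : ℝ)

/-- inverses modulo `q` -/
theorem exists_inv (q : ℕ) : ∃ v : ℕ → ℤ, ∀ n : ℕ, n.Coprime q → (q : ℤ) ∣ (n : ℤ) * v n - 1 := by
  have : ∀ n : ℕ, ∃ v : ℤ, n.Coprime q → (q : ℤ) ∣ (n : ℤ) * v - 1 := by
    intro n
    by_cases h : n.Coprime q
    · have h' : IsCoprime (n : ℤ) (q : ℤ) := Nat.isCoprime_iff_coprime.mpr h
      obtain ⟨a, b, hab⟩ := h'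
      exact ⟨a, fun _ => ⟨-b, by linarith⟩⟩
    · exact ⟨0, fun h' => absurd h' h⟩
  choose v hv using this
  exact ⟨v, hv⟩

/-- the numerators stay coprime to the denominators -/
theorem cop_v (q n Qi : ℕ) (bi v : ℤ) (i : ℕ) (hv : (q : ℤ) ∣ (n : ℤ) * v - 1)
    (hc : IsCoprime bi (Qi : ℤ)) (hp : ∀ p : ℕ, p.Prime → p ∣ Qi → p ∣ q) : IsCoprime (bi * v ^ i) (Qi : ℤ) := by
  refine hc.mul_left (IsCoprime.pow_left ?_)
  rw [Int.isCoprime_iff_gcd_eq_one]
  by_contra hne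
  obtain ⟨p, hp1, hp2⟩ := Nat.exists_prime_and_dvd hne
  have h1 : (p : ℤ) ∣ v := (Int.natCast_dvd_natCast.mpr hp2).trans (Int.gcd_dvd_left _ _)
  have h2 : (p : ℤ) ∣ (Qi : ℤ) := (Int.natCast_dvd_natCast.mpr hp2).trans (Int.gcd_dvd_right _ _)
  have h3 : p ∣ q := hp p hp1 (Int.natCast_dvd_natCast.mp h2)
  have h4 : (p : ℤ) ∣ (n : ℤ) * v - 1 := (Int.natCast_dvd_natCast.mpr h3).trans hv
  have h5 : (p : ℤ) ∣ ((1 : ℕ) : ℤ) := by
    have := dvd_sub (Dvd.dvd.mul_left h1 (n : ℤ)) h4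
    have e : (n : ℤ) * v - ((n : ℤ) * v - 1) = ((1 : ℕ) : ℤ) := by push_cast; ring
    rwa [e] at this
  have h6 := Int.natCast_dvd_natCast.mp h5
  exact hp1.one_lt.ne' (Nat.dvd_one.mp h6)

theorem rad_pos (q : ℕ) : 1 ≤ rad q := by
  unfold rad
  exact Finset.prod_pos fun p hp => (Nat.prime_of_mem_primeFactors hp).pos

/-- the conditions of `S_IDX` on the denominators -/
theorem den_cond (q D m i Qi : ℕ) (hq : 2 ≤ q) (hD1 : 1 ≤ D)
    (hg : i ≤ m → (q : ℝ) ^ (i / m : ℝ) ≤ Nat.gcd q (D ^ i)) (hDm : q ∣ D ^ m)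
    (h1 : q ≤ Qi * Nat.gcd q (D ^ i)) (h2 : Qi * Nat.gcd q (D ^ i) ≤ i * q) :
    q ≤ Qi * D ^ i ∧ (i ≤ m → (Qi : ℝ) ≤ i * (q : ℝ) ^ (1 - i / m : ℝ)) ∧ (m ≤ i → Qi ≤ i) := by
  have hq0 : (0 : ℝ) < q := by exact_mod_cast (by omega : 0 < q)
  refine ⟨h1.trans (Nat.mul_le_mul_left _ (Nat.gcd_le_right _ (Nat.pow_pos hD1))), ?_, ?_⟩
  · intro him
    have h3 := hg him
    have h4 : (Qi : ℝ) * (q : ℝ) ^ (i / m : ℝ) ≤ i * q := by
      calc (Qi : ℝ) * (q : ℝ) ^ (i / m : ℝ) ≤ (Qi : ℝ) * Nat.gcd q (D ^ i) :=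
            mul_le_mul_of_nonneg_left h3 (Nat.cast_nonneg _)
        _ ≤ i * q := by exact_mod_cast h2
    have h5 : (0 : ℝ) < (q : ℝ) ^ (i / m : ℝ) := Real.rpow_pos_of_pos hq0 _
    rw [Real.rpow_sub hq0, Real.rpow_one, ← mul_div_assoc, le_div_iff₀ h5]
    exact h4
  · intro hmi
    have h3 : q ∣ D ^ i := hDm.trans (pow_dvd_pow _ hmi)
    rw [Nat.gcd_eq_left h3] at h2
    exact Nat.le_of_mul_le_mul_right h2 (by omega)

set_option maxHeartbeats 4000000 in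
theorem core (h3 : S_POST) (h4 : S_SHIFTQ) (h6 : S_IDX) (h8 : S_DSEL) (h8' : S_MOD4) (C : ℕ) (hC : TNQ C)
    (q : ℕ) (χ : DirichletCharacter ℂ q) (t : ℝ) (N N' K r : ℕ) (L : ℝ) (hL : 1 ≤ L) (hq : 2 ≤ q)
    (hχ : χ.IsPrimitive) (hN : 2 ≤ N) (hNq : (N : ℝ) ^ (1 / 4 : ℝ) ≤ q) (hNN : N ≤ N') (hN2 : N' ≤ 2 * N)
    (hr : r = ⌈100 * ((Real.log q + Real.log (max |t| 1)) / Real.log N + 1)⌉₊)
    (hR : ((2 * rad q : ℕ) : ℝ) ^ r ≤ (N : ℝ) ^ (1 / 1000 : ℝ))
    (hs : 100 * ((r ^ 2 + r ^ 3 : ℕ) : ℝ) ^ 2 * r * (1 + Real.log N) ≤ (N : ℝ) ^ (1 / 1000 : ℝ))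
    (hbig : C * (r : ℝ) ^ C + Real.log 4 + K * Real.log L ≤
      Real.log N / (1000 * ((r ^ 2 + r ^ 3 : ℕ) : ℝ) ^ 2)) :
    ‖∑ n ∈ Ioc N N', χ (n : ZMod q) * tw t n‖ ≤ N / L ^ K := by
  have hN0 : (0 : ℝ) < N := by exact_mod_cast (by omega : 0 < N)
  have hN1 : (1 : ℝ) < N := by exact_mod_cast (by omega : 1 < N)
  have hq0 : (0 : ℝ) < q := by exact_mod_cast (by omega : 0 < q)
  have hq1 : (1 : ℝ) < q := by exact_mod_cast (by omega : 1 < q)
  obtain ⟨l, hl⟩ : ∃ l, l = Real.log N := ⟨_, rfl⟩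
  have hl0 : 0 < l := by rw [hl]; exact Real.log_pos hN1
  have hNe : (N : ℝ) = Real.exp l := by rw [hl, Real.exp_log hN0]
  have hpow : ∀ x : ℝ, (N : ℝ) ^ x = Real.exp (l * x) := fun x => by rw [hl, Real.rpow_def_of_pos hN0 x]
  obtain ⟨lq, hlq⟩ : ∃ lq, lq = Real.log q := ⟨_, rfl⟩
  have hlq0 : 0 < lq := by rw [hlq]; exact Real.log_pos hq1
  obtain ⟨lt, hlt⟩ : ∃ lt, lt = Real.log (max |t| 1) := ⟨_, rfl⟩
  have hlt0 : 0 ≤ lt := by rw [hlt]; exact Real.log_nonneg (le_max_right _ _)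
  have ht : |t| ≤ Real.exp lt := by
    rw [hlt, Real.exp_log (lt_of_lt_of_le one_pos (le_max_right _ _))]; exact le_max_left _ _
  have hlq4 : l / 4 ≤ lq := by
    have := Real.log_le_log (Real.rpow_pos_of_pos hN0 _) hNq
    rw [Real.log_rpow hN0, ← hl, ← hlq] at this; linarith
  obtain ⟨m, hm⟩ : ∃ m, m = ⌈40 * Real.log q / Real.log N⌉₊ := ⟨_, rfl⟩
  have hm1 : 40 * lq / l ≤ m := by rw [hm, hlq, hl]; exact Nat.le_ceil _
  have hm2 : (m : ℝ) < 40 * lq / l + 1 := by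
    rw [hm, hlq, hl]; exact Nat.ceil_lt_add_one (by rw [← hlq, ← hl]; positivity)
  have hr1 : 100 * ((lq + lt) / l + 1) ≤ r := by rw [hr, hlq, hl, hlt]; exact Nat.le_ceil _
  have e2 : (lq + lt) / l = lq / l + lt / l := by ring
  have e3 : 0 ≤ lq / l := by positivity
  have e4 : 0 ≤ lt / l := by positivity
  have hr100 : (100 : ℝ) ≤ r := by rw [e2] at hr1; linarith
  have hr100' : 100 ≤ r := by exact_mod_cast hr100
  have hm10 : (10 : ℝ) ≤ m := by
    have : 10 ≤ 40 * lq / l := by rw [le_div_iff₀ hl0]; linarith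
    linarith
  have hmpos : 1 ≤ m := by
    have : (1 : ℝ) ≤ m := by linarith
    exact_mod_cast this
  have h2m : 2 * m ≤ r + 1 := by
    have : (2 : ℝ) * m ≤ r + 1 := by
      have e1 : 40 * lq / l = 40 * (lq / l) := by ring
      rw [e1] at hm2
      rw [e2] at hr1
      linarith
    exact_mod_cast this
  obtain ⟨D, hD1, hDq, hDp, hD4, hD5, hD6, hD7, hD8, hD9⟩ := h8 q m hq (h8' q χ hχ) hmpos
  obtain ⟨b, Q, hbQ, hpost⟩ := h3 q D r χ (by omega) (by omega) hχ hDq hDp hD4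
    (fun p hp hpq => hD7 r p h2m hp hpq)
  obtain ⟨v, hv⟩ := exists_inv q
  obtain ⟨M, hM⟩ : ∃ M, M = ⌊(N : ℝ) ^ (2 / 5 : ℝ)⌋₊ := ⟨_, rfl⟩
  have hM1 : 1 ≤ M := by
    rw [hM]; apply Nat.le_floor
    rw [Nat.cast_one]; exact Real.one_le_rpow hN1.le (by norm_num)
  have hM2 : (M : ℝ) ≤ (N : ℝ) ^ (2 / 5 : ℝ) := by
    rw [hM]; exact Nat.floor_le (Real.rpow_nonneg hN0.le _)
  have hM0 : (0 : ℝ) < M := by exact_mod_cast hM1
  have hRad := rad_pos q
  have hR2 : 2 ≤ 2 * rad q := by omega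
  have hK : 0 ≤ K * Real.log L := mul_nonneg (Nat.cast_nonneg _) (Real.log_nonneg hL)
  have hL0 : 0 < L := by linarith
  have hLK : 1 / (4 * L ^ K) = Real.exp (-(Real.log 4 + K * Real.log L)) := by
    rw [Real.exp_neg, Real.exp_add, Real.exp_log (by norm_num), mul_comm (K : ℝ), Real.exp_mul,
      Real.exp_log hL0, Real.rpow_natCast, one_div]
  obtain ⟨s, hsd⟩ : ∃ s, s = r ^ 2 + r ^ 3 := ⟨_, rfl⟩
  rw [← hsd] at hs hbig
  have hs1 : 1 ≤ s := by rw [hsd]; have := Nat.pow_pos (n := 2) (by omega : 0 < r); omega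
  have hs1' : (1 : ℝ) ≤ s := by exact_mod_cast hs1
  have hlog4 : 0 ≤ Real.log 4 := Real.log_nonneg (by norm_num)
  have hsmall : C * (r : ℝ) ^ C + Real.log 4 + K * Real.log L ≤ l / 1000 := by
    refine hbig.trans ?_
    rw [← hl]
    apply div_le_div_of_nonneg_left hl0.le (by norm_num)
    nlinarith
  have hCr : 0 ≤ (C : ℝ) * (r : ℝ) ^ C := by positivity
  -- the bilinear sums
  have hTT : ∀ n ∈ (Ioc N N').filter (fun n => n.Coprime q),
      ‖TT r M (be D t b Q (v n) n)‖ ≤ (M : ℝ) ^ 2 * (1 / (4 * L ^ K)) := by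
    intro n hn
    rw [mem_filter, mem_Ioc] at hn
    obtain ⟨⟨hn1, hn2⟩, hn3⟩ := hn
    obtain ⟨i, hi, hW⟩ := h6 N n s r m M D q (2 * rad q) t (fun i => b i * (v n) ^ i) Q hN
      (mem_Icc.mpr ⟨hn1.le, hn2.trans hN2⟩) hs1 hNq hm hr hM hD5 hD6 hR2 hR hs
      (by
        intro i hi
        obtain ⟨c1, c2, c3, c4, c5⟩ := hbQ i hi
        obtain ⟨d1, d2, d3⟩ := den_cond q D m i (Q i) hq hD1 (hD8 i) hD9 c4 c5
        exact ⟨c1, cop_v q n (Q i) (b i) (v n) i (hv n hn3) c2 c3, d1, d2, d3⟩)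
    have hΔ1 : 1 ≤ (N : ℝ) ^ (1 / 200 : ℝ) := Real.one_le_rpow hN1.le (by norm_num)
    have hT := hC r s M i (be D t b Q (v n) n) ((N : ℝ) ^ (1 / 200 : ℝ)) (by omega) hsd hM1 hi hΔ1
      (by
        refine hW.trans_eq ?_
        rw [Real.rpow_neg hN0.le]
        exact (div_eq_mul_inv _ _).symm)
    refine hT.trans ?_
    rw [mul_assoc]
    refine mul_le_mul_of_nonneg_left ?_ (by positivity)
    have hratio : (M : ℝ) ^ (1 / 100000 : ℝ) / (N : ℝ) ^ (1 / 200 : ℝ) ≤ Real.exp (-(l / 250)) := by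
      have h1 : (M : ℝ) ^ (1 / 100000 : ℝ) ≤ Real.exp (l * (2 / 5) * (1 / 100000)) := by
        refine (Real.rpow_le_rpow hM0.le hM2 (by norm_num)).trans ?_
        rw [hpow, ← Real.exp_mul]
      rw [hpow, div_le_iff₀ (Real.exp_pos _), ← Real.exp_add]
      refine h1.trans (Real.exp_le_exp.mpr ?_)
      linarith
    have hpw : ((M : ℝ) ^ (1 / 100000 : ℝ) / (N : ℝ) ^ (1 / 200 : ℝ)) ^ (1 / (4 * (s : ℝ) ^ 2) : ℝ) ≤
        Real.exp (-(l / (1000 * (s : ℝ) ^ 2))) := by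
      refine (Real.rpow_le_rpow (by positivity) hratio (by positivity)).trans ?_
      rw [← Real.exp_mul]
      refine Real.exp_le_exp.mpr (le_of_eq ?_)
      have : (s : ℝ) ≠ 0 := by positivity
      field_simp
      ring
    refine (mul_le_mul_of_nonneg_left hpw (Real.exp_pos _).le).trans ?_
    rw [← Real.exp_add, hLK]
    refine Real.exp_le_exp.mpr ?_
    rw [← hl] at hbig
    linarith
  -- the size of `D M ^ 2`
  have hDM : (D : ℝ) * (M : ℝ) ^ 2 ≤ Real.exp (l * (413 / 500)) := by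
    have hRN : ((2 * rad q : ℕ) : ℝ) ≤ Real.exp (l * (1 / 1000)) := by
      rw [← hpow]
      refine le_trans ?_ hR
      have h1 : (1 : ℝ) ≤ ((2 * rad q : ℕ) : ℝ) := by exact_mod_cast (by omega : 1 ≤ 2 * rad q)
      exact le_self_pow₀ h1 (by omega)
    have hqm : (q : ℝ) ^ (1 / m : ℝ) ≤ Real.exp (l * (1 / 40)) := by
      rw [Real.rpow_def_of_pos hq0, ← hlq]
      refine Real.exp_le_exp.mpr ?_
      rw [div_le_iff₀ hl0] at hm1
      have hm0 : (0 : ℝ) < m := by linarith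
      rw [mul_one_div, div_le_iff₀ hm0]
      linarith
    have hMM : (M : ℝ) ^ 2 ≤ Real.exp (l * (4 / 5)) := by
      calc (M : ℝ) ^ 2 ≤ ((N : ℝ) ^ (2 / 5 : ℝ)) ^ 2 := by gcongr
        _ = Real.exp (l * (4 / 5)) := by
          rw [hpow, ← Real.exp_nat_mul]; congr 1; push_cast; ring
    calc (D : ℝ) * (M : ℝ) ^ 2
        ≤ (Real.exp (l * (1 / 1000)) * Real.exp (l * (1 / 40))) * Real.exp (l * (4 / 5)) := by
          refine mul_le_mul (hD6.trans ?_) hMM (by positivity) (by positivity)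
          exact mul_le_mul hRN hqm (Real.rpow_nonneg hq0.le _) (by positivity)
      _ = Real.exp (l * (413 / 500)) := by
          rw [← Real.exp_add, ← Real.exp_add]; congr 1; ring
  have key := h4 q D r N N' M χ t b Q v (by omega) (by omega) hD1 hDq hDp hpost hv (by omega) hNN hN2 hM1
  refine key.trans ?_
  have T1 : 1 / (M : ℝ) ^ 2 * ∑ n ∈ (Ioc N N').filter (fun n => n.Coprime q), ‖TT r M (be D t b Q (v n) n)‖ ≤
      N * (1 / (4 * L ^ K)) := by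
    have hc : (((Ioc N N').filter (fun n => n.Coprime q)).card : ℝ) ≤ N := by
      have h1 : ((Ioc N N').filter (fun n => n.Coprime q)).card ≤ N := by
        refine (card_filter_le _ _).trans ?_
        rw [Nat.card_Ioc]; omega
      exact_mod_cast h1
    have h1 := sum_le_card_nsmul _ _ _ hTT
    rw [nsmul_eq_mul] at h1
    calc 1 / (M : ℝ) ^ 2 * ∑ n ∈ (Ioc N N').filter (fun n => n.Coprime q), ‖TT r M (be D t b Q (v n) n)‖
        ≤ 1 / (M : ℝ) ^ 2 * (N * ((M : ℝ) ^ 2 * (1 / (4 * L ^ K)))) := by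
          refine mul_le_mul_of_nonneg_left (h1.trans ?_) (by positivity)
          exact mul_le_mul_of_nonneg_right hc (by positivity)
      _ = N * (1 / (4 * L ^ K)) := by field_simp
  have T2 : 2 * (D * (M : ℝ) ^ 2) ≤ N * (1 / (4 * L ^ K)) := by
    have hlog2 : Real.log 2 ≤ Real.log 4 := Real.log_le_log (by norm_num) (by norm_num)
    calc 2 * (D * (M : ℝ) ^ 2) ≤ Real.exp (Real.log 2) * Real.exp (l * (413 / 500)) := by
          rw [Real.exp_log (by norm_num)]; linarith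
      _ = Real.exp (Real.log 2 + l * (413 / 500)) := by rw [← Real.exp_add]
      _ ≤ Real.exp (l + -(Real.log 4 + K * Real.log L)) := Real.exp_le_exp.mpr (by linarith)
      _ = N * (1 / (4 * L ^ K)) := by rw [Real.exp_add, ← hNe, hLK]
  have T3 : N * |t| * (D * (M : ℝ) ^ 2 / N) ^ (r + 1) ≤ N * (1 / (4 * L ^ K)) := by
    have h1 : D * (M : ℝ) ^ 2 / N ≤ Real.exp (-(l * (87 / 500))) := by
      rw [div_le_iff₀ hN0, hNe, ← Real.exp_add]
      refine hDM.trans (Real.exp_le_exp.mpr ?_)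
      linarith
    have h2 : (D * (M : ℝ) ^ 2 / N) ^ (r + 1) ≤ Real.exp (-(87 / 5 * (lt + l))) := by
      refine (pow_le_pow_left₀ (by positivity) h1 (r + 1)).trans ?_
      rw [← Real.exp_nat_mul]
      refine Real.exp_le_exp.mpr ?_
      have h3 : 100 * (lt + l) ≤ l * (r + 1) := by
        rw [e2] at hr1
        have h4 : 100 * (lt / l + 1) ≤ (r : ℝ) + 1 := by linarith
        have h5 := mul_le_mul_of_nonneg_left h4 hl0.le
        have h6 : l * (100 * (lt / l + 1)) = 100 * (lt + l) := by field_simp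
        linarith
      push_cast
      linarith
    rw [mul_assoc]
    refine mul_le_mul_of_nonneg_left ?_ hN0.le
    calc |t| * (D * (M : ℝ) ^ 2 / N) ^ (r + 1) ≤ Real.exp lt * Real.exp (-(87 / 5 * (lt + l))) :=
          mul_le_mul ht h2 (by positivity) (by positivity)
      _ = Real.exp (lt + -(87 / 5 * (lt + l))) := by rw [← Real.exp_add]
      _ ≤ Real.exp (-(Real.log 4 + K * Real.log L)) := Real.exp_le_exp.mpr (by linarith)
      _ = 1 / (4 * L ^ K) := hLK.symm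
  have hLK0 : 0 < L ^ K := by positivity
  have hsum : N * (1 / (4 * L ^ K)) + N * (1 / (4 * L ^ K)) + N * (1 / (4 * L ^ K)) ≤ N / L ^ K := by
    have e : N / L ^ K = 4 * (N * (1 / (4 * L ^ K))) := by field_simp
    have : 0 ≤ N * (1 / (4 * L ^ K)) := by positivity
    rw [e]; linarith
  linarith

theorem ev_log (b c : ℝ) (hb : 0 < b) (hc : 0 < c) : ∀ᶠ L : ℝ in atTop, Real.log L ≤ c * L ^ b := by
  have h := (isLittleO_log_rpow_atTop hb).def hc
  filter_upwards [h, eventually_ge_atTop (1 : ℝ)] with L h1 h2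
  have h3 : 0 ≤ L ^ b := Real.rpow_nonneg (by linarith) _
  rw [Real.norm_eq_abs, Real.norm_eq_abs, abs_of_nonneg h3] at h1
  exact (le_abs_self _).trans h1

theorem ev_const (b c : ℝ) (hb : 0 < b) : ∀ᶠ L : ℝ in atTop, c ≤ L ^ b :=
  (tendsto_rpow_atTop hb).eventually_ge_atTop c

theorem ev_pow (a b c : ℝ) (hab : a < b) (hc : 0 < c) : ∀ᶠ L : ℝ in atTop, L ^ a ≤ c * L ^ b := by
  filter_upwards [ev_const (b - a) (1 / c) (by linarith), eventually_ge_atTop (1 : ℝ)] with L h1 h2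
  have h0 : 0 < L := by linarith
  have h3 : 0 < L ^ a := Real.rpow_pos_of_pos h0 _
  have e : L ^ b = L ^ (b - a) * L ^ a := by rw [← Real.rpow_add h0]; congr 1; ring
  rw [e, ← mul_assoc]
  have h4 : 1 ≤ c * L ^ (b - a) := by
    have := mul_le_mul_of_nonneg_left h1 hc.le
    rwa [mul_one_div_cancel hc.ne'] at this
  nlinarith

set_option maxHeartbeats 4000000 in
theorem tbbig (h3 : S_POST) (h4 : S_SHIFTQ) (h6 : S_IDX) (h7 : S_TNQ) (h8 : S_DSEL) (h8' : S_MOD4) :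
    S_TBBIG := by
  obtain ⟨C, hC⟩ := h7
  have hC' : TNQ C := hC
  have hC0 : (0 : ℝ) ≤ C := Nat.cast_nonneg _
  obtain ⟨η, hη⟩ : ∃ η : ℝ, η = 1 / ((C : ℝ) + 40) := ⟨_, rfl⟩
  have hη0 : 0 < η := by rw [hη]; positivity
  have hη1 : η * (C + 40) = 1 := by rw [hη]; field_simp
  have hη40 : η ≤ 1 / 40 := by nlinarith [mul_nonneg hη0.le hC0]
  refine ⟨η, hη0, by linarith, ?_⟩
  intro A B K
  obtain ⟨c, hc⟩ : ∃ c : ℝ, c = 200 * A + 101 := ⟨_, rfl⟩
  have hA0 : (0 : ℝ) ≤ A := Nat.cast_nonneg _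
  have hc1 : 1 ≤ c := by rw [hc]; linarith
  have hc0 : 0 < c := by linarith
  have E1 := ev_log (1 - 2 * η) (1 / (1000 * c * (B + 1))) (by linarith) (by positivity)
  have E2 := ev_const (1 - η) (4800 * 10 ^ 9 * c ^ 7) (by linarith)
  have E3 := ev_pow (η * C) (1 - 7 * η) (1 / ((C * c ^ C + 1) * (12000 * c ^ 6)))
    (by nlinarith [mul_nonneg hη0.le hC0]) (by positivity)
  have E4 := ev_const (1 - 7 * η) (12000 * c ^ 6 * Real.log 4) (by linarith)
  have E5 := ev_log (1 - 7 * η) (1 / ((K + 1) * (12000 * c ^ 6))) (by linarith) (by positivity)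
  obtain ⟨L₀, hL₀⟩ := eventually_atTop.mp (E1.and (E2.and (E3.and (E4.and E5))))
  refine ⟨max 2 L₀, le_max_left _ _, ?_⟩
  intro L hL q χ t hq hχ hrad hqA htA N N' hN hNq hNN hN2
  obtain ⟨F1, F2, F3, F4, F5⟩ := hL₀ L ((le_max_right _ _).trans hL)
  have hL2 : 2 ≤ L := (le_max_left _ _).trans hL
  have hL0 : 0 < L := by linarith
  have hL1 : 1 ≤ L := by linarith
  have hlogL : 0 ≤ Real.log L := Real.log_nonneg hL1
  have hLη : 1 ≤ L ^ η := Real.one_le_rpow hL1 hη0.le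
  have hLη1 : 1 ≤ L ^ (1 - η) := Real.one_le_rpow hL1 (by linarith)
  have hN0 : (0 : ℝ) < N := lt_of_lt_of_le (Real.exp_pos _) hN
  obtain ⟨l, hl⟩ : ∃ l, l = Real.log N := ⟨_, rfl⟩
  have hlL : L ^ (1 - η) ≤ l := by rw [hl]; exact (Real.le_log_iff_exp_le hN0).mpr hN
  have hl1 : 1 ≤ l := hLη1.trans hlL
  have hl0 : 0 < l := by linarith
  have hNN2 : 2 ≤ N := by
    by_contra hlt
    have h1 : N ≤ 1 := by omega
    have h2 : Real.log N ≤ 0 := Real.log_nonpos hN0.le (by exact_mod_cast h1)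
    rw [← hl] at h2
    linarith
  have hq0 : (0 : ℝ) < q := by exact_mod_cast (by omega : 0 < q)
  have hq1 : (1 : ℝ) ≤ q := by exact_mod_cast (by omega : 1 ≤ q)
  have hpow : ∀ x : ℝ, (N : ℝ) ^ x = Real.exp (l * x) := fun x => by rw [hl, Real.rpow_def_of_pos hN0 x]
  have hlq : Real.log q ≤ A * L := by
    rw [← Real.log_exp ((A : ℝ) * L)]
    exact Real.log_le_log hq0 hqA
  have hlq0 : 0 ≤ Real.log q := Real.log_nonneg hq1
  have hlt : Real.log (max |t| 1) ≤ A * L := by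
    rw [← Real.log_exp ((A : ℝ) * L)]
    exact Real.log_le_log (lt_of_lt_of_le one_pos (le_max_right _ _))
      (max_le htA (Real.one_le_exp (by positivity)))
  have hlt0 : 0 ≤ Real.log (max |t| 1) := Real.log_nonneg (le_max_right _ _)
  obtain ⟨r, hr⟩ : ∃ r, r = ⌈100 * ((Real.log q + Real.log (max |t| 1)) / Real.log N + 1)⌉₊ := ⟨_, rfl⟩
  have hLsub : L / L ^ (1 - η) = L ^ η := by
    rw [div_eq_iff (Real.rpow_pos_of_pos hL0 _).ne', ← Real.rpow_add hL0]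
    have e : η + (1 - η) = 1 := by ring
    rw [e, Real.rpow_one]
  have hrc : (r : ℝ) ≤ c * L ^ η := by
    have h1 : (r : ℝ) < 100 * ((Real.log q + Real.log (max |t| 1)) / Real.log N + 1) + 1 := by
      rw [hr]
      refine Nat.ceil_lt_add_one ?_
      rw [← hl]
      positivity
    have h2 : (Real.log q + Real.log (max |t| 1)) / Real.log N ≤ 2 * A * L ^ η := by
      rw [← hl, ← hLsub]
      calc (Real.log q + Real.log (max |t| 1)) / l ≤ (2 * A * L) / l := by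
            apply div_le_div_of_nonneg_right _ hl0.le; linarith
        _ ≤ (2 * A * L) / L ^ (1 - η) := by
            apply div_le_div_of_nonneg_left (by positivity) (by positivity) hlL
        _ = 2 * A * (L / L ^ (1 - η)) := by ring
    rw [hc]
    nlinarith
  have hr1 : (1 : ℝ) ≤ r := by
    have h1 : 100 * ((Real.log q + Real.log (max |t| 1)) / Real.log N + 1) ≤ r := by
      rw [hr]; exact Nat.le_ceil _
    have h2 : 0 ≤ (Real.log q + Real.log (max |t| 1)) / Real.log N := by rw [← hl]; positivity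
    linarith
  have hr0 : (0 : ℝ) ≤ r := by linarith
  have hs2 : ((r ^ 2 + r ^ 3 : ℕ) : ℝ) ^ 2 ≤ 4 * (r : ℝ) ^ 6 := by
    push_cast
    have h1 : (r : ℝ) ^ 2 ≤ (r : ℝ) ^ 3 := pow_le_pow_right₀ hr1 (by norm_num)
    calc ((r : ℝ) ^ 2 + (r : ℝ) ^ 3) ^ 2 ≤ (2 * (r : ℝ) ^ 3) ^ 2 := by
          apply pow_le_pow_left₀ (by positivity); linarith
      _ = 4 * (r : ℝ) ^ 6 := by ring
  have hs0 : 0 < ((r ^ 2 + r ^ 3 : ℕ) : ℝ) ^ 2 := by
    have : 0 < ((r ^ 2 + r ^ 3 : ℕ) : ℝ) := by push_cast; positivity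
    positivity
  have hr6 : (r : ℝ) ^ 6 ≤ c ^ 6 * L ^ (6 * η) := by
    calc (r : ℝ) ^ 6 ≤ (c * L ^ η) ^ 6 := pow_le_pow_left₀ hr0 hrc 6
      _ = c ^ 6 * L ^ (6 * η) := by
        rw [mul_pow, ← Real.rpow_natCast (L ^ η) 6, ← Real.rpow_mul hL0.le]
        congr 2; push_cast; ring
  have hr7 : (r : ℝ) ^ 7 ≤ c ^ 7 * L ^ (7 * η) := by
    calc (r : ℝ) ^ 7 ≤ (c * L ^ η) ^ 7 := pow_le_pow_left₀ hr0 hrc 7
      _ = c ^ 7 * L ^ (7 * η) := by
        rw [mul_pow, ← Real.rpow_natCast (L ^ η) 7, ← Real.rpow_mul hL0.le]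
        congr 2; push_cast; ring
  have hrC : (r : ℝ) ^ C ≤ c ^ C * L ^ (η * C) := by
    calc (r : ℝ) ^ C ≤ (c * L ^ η) ^ C := pow_le_pow_left₀ hr0 hrc C
      _ = c ^ C * L ^ (η * C) := by
        rw [mul_pow, ← Real.rpow_natCast (L ^ η) C, ← Real.rpow_mul hL0.le]
  refine core h3 h4 h6 h8 h8' C hC' q χ t N N' K r L hL1 hq hχ hNN2 hNq hNN hN2 hr ?_ ?_ ?_
  · -- the radical
    have h1 : ((2 * rad q : ℕ) : ℝ) ≤ Real.exp ((B + 1) * Real.log L) := by
      have e : Real.exp ((B + 1) * Real.log L) = L ^ (B + 1) := by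
        rw [mul_comm, Real.exp_mul, Real.exp_log hL0]
        have : ((B : ℝ) + 1) = ((B + 1 : ℕ) : ℝ) := by push_cast; ring
        rw [this, Real.rpow_natCast]
      rw [e, pow_succ]
      push_cast
      have : 0 ≤ L ^ B := by positivity
      nlinarith
    rw [hpow]
    refine (pow_le_pow_left₀ (Nat.cast_nonneg _) h1 r).trans ?_
    rw [← Real.exp_nat_mul]
    refine Real.exp_le_exp.mpr ?_
    have h2 : (r : ℝ) * ((B + 1) * Real.log L) ≤ (c * L ^ η) * ((B + 1) * (1 / (1000 * c * (B + 1)) * L ^ (1 - 2 * η))) := by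
      refine mul_le_mul hrc ?_ (by positivity) (by positivity)
      exact mul_le_mul_of_nonneg_left F1 (by positivity)
    refine h2.trans ?_
    have e : (c * L ^ η) * ((B + 1) * (1 / (1000 * c * (B + 1)) * L ^ (1 - 2 * η))) = L ^ (1 - η) * (1 / 1000) := by
      have e1 : L ^ (1 - η) = L ^ η * L ^ (1 - 2 * η) := by rw [← Real.rpow_add hL0]; congr 1; ring
      rw [e1]
      field_simp
    rw [e]
    exact mul_le_mul_of_nonneg_right hlL (by norm_num)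
  · -- the powers
    rw [hpow, ← hl]
    have h1 : (r : ℝ) ^ 7 ≤ c ^ 7 * l := by
      refine hr7.trans (mul_le_mul_of_nonneg_left ?_ (by positivity))
      exact (Real.rpow_le_rpow_of_exponent_le hL1 (by linarith)).trans hlL
    have h2 : 100 * ((r ^ 2 + r ^ 3 : ℕ) : ℝ) ^ 2 * r * (1 + l) ≤ 800 * c ^ 7 * l ^ 2 := by
      calc 100 * ((r ^ 2 + r ^ 3 : ℕ) : ℝ) ^ 2 * r * (1 + l) ≤ 100 * (4 * (r : ℝ) ^ 6) * r * (1 + l) := by
            gcongr
        _ = 400 * (r : ℝ) ^ 7 * (1 + l) := by ring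
        _ ≤ 400 * (c ^ 7 * l) * (l + l) := by gcongr
        _ = 800 * c ^ 7 * l ^ 2 := by ring
    refine h2.trans ?_
    have h3 : (l * (1 / 1000)) ^ 3 / (Nat.factorial 3 : ℝ) ≤ Real.exp (l * (1 / 1000)) :=
      Real.pow_div_factorial_le_exp _ (by positivity) 3
    refine le_trans ?_ h3
    have h4 : 4800 * 10 ^ 9 * c ^ 7 ≤ l := F2.trans hlL
    have h5 : (l * (1 / 1000)) ^ 3 / (Nat.factorial 3 : ℝ) = l * l ^ 2 / (6 * 10 ^ 9) := by
      have : (Nat.factorial 3 : ℝ) = 6 := by norm_num [Nat.factorial]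
      rw [this]; ring
    rw [h5, le_div_iff₀ (by norm_num)]
    have h6 := mul_le_mul_of_nonneg_right h4 (sq_nonneg l)
    linarith
  · -- the main inequality
    rw [← hl]
    have hc6 : 0 < 12000 * c ^ 6 := by positivity
    have G0 : L ^ (1 - 7 * η) / (4000 * c ^ 6) ≤ l / (1000 * ((r ^ 2 + r ^ 3 : ℕ) : ℝ) ^ 2) := by
      have h1 : 1000 * ((r ^ 2 + r ^ 3 : ℕ) : ℝ) ^ 2 ≤ 4000 * c ^ 6 * L ^ (6 * η) := by
        linarith
      calc L ^ (1 - 7 * η) / (4000 * c ^ 6) = L ^ (1 - η) / (4000 * c ^ 6 * L ^ (6 * η)) := by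
            have e1 : L ^ (1 - η) = L ^ (1 - 7 * η) * L ^ (6 * η) := by
              rw [← Real.rpow_add hL0]; congr 1; ring
            have : L ^ (6 * η) ≠ 0 := (Real.rpow_pos_of_pos hL0 _).ne'
            rw [e1]; field_simp
        _ ≤ l / (4000 * c ^ 6 * L ^ (6 * η)) := by
            apply div_le_div_of_nonneg_right hlL (by positivity)
        _ ≤ l / (1000 * ((r ^ 2 + r ^ 3 : ℕ) : ℝ) ^ 2) := by
            apply div_le_div_of_nonneg_left hl0.le (by positivity) h1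
    have hP : 0 ≤ L ^ (1 - 7 * η) := Real.rpow_nonneg hL0.le _
    have G1 : C * (r : ℝ) ^ C ≤ L ^ (1 - 7 * η) / (12000 * c ^ 6) := by
      calc (C : ℝ) * (r : ℝ) ^ C ≤ C * (c ^ C * L ^ (η * C)) := mul_le_mul_of_nonneg_left hrC hC0
        _ ≤ (C * c ^ C + 1) * L ^ (η * C) := by
            have : 0 ≤ L ^ (η * C) := Real.rpow_nonneg hL0.le _
            nlinarith
        _ ≤ (C * c ^ C + 1) * (1 / ((C * c ^ C + 1) * (12000 * c ^ 6)) * L ^ (1 - 7 * η)) :=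
            mul_le_mul_of_nonneg_left F3 (by positivity)
        _ = L ^ (1 - 7 * η) / (12000 * c ^ 6) := by
            have : (C : ℝ) * c ^ C + 1 ≠ 0 := by positivity
            field_simp
    have G2 : Real.log 4 ≤ L ^ (1 - 7 * η) / (12000 * c ^ 6) := by
      rw [le_div_iff₀ hc6]; linarith
    have G3 : K * Real.log L ≤ L ^ (1 - 7 * η) / (12000 * c ^ 6) := by
      calc (K : ℝ) * Real.log L ≤ (K + 1) * Real.log L := by nlinarith
        _ ≤ (K + 1) * (1 / ((K + 1) * (12000 * c ^ 6)) * L ^ (1 - 7 * η)) :=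
            mul_le_mul_of_nonneg_left F5 (by positivity)
        _ = L ^ (1 - 7 * η) / (12000 * c ^ 6) := by
            have : (K : ℝ) + 1 ≠ 0 := by positivity
            field_simp
    have e : L ^ (1 - 7 * η) / (4000 * c ^ 6) = L ^ (1 - 7 * η) / (12000 * c ^ 6) +
        L ^ (1 - 7 * η) / (12000 * c ^ 6) + L ^ (1 - 7 * η) / (12000 * c ^ 6) := by
      field_simp; ring
    linarith

end Pool.Agent.H17.PP
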